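import Pool.Agent.Helper16.SYM.Defs

/-!
# SYM-A4: the norm of a weighted monic element is monic
-/

namespace Pool.Agent.Helper49.SYM

open Polynomial
open Pool.Agent.Helper16.SYM

theorem coeff_prod_bound {R ι : Type*} [CommRing R] (s : Finset ι) (f : ι → R[X]) (d : ι → ℕ)
    (h : ∀ i ∈ s, (f i).natDegree ≤ d i) :
    (∏ i ∈ s, f i).natDegree ≤ ∑ i ∈ s, d i ∧
      (∏ i ∈ s, f i).coeff (∑ i ∈ s, d i) = ∏ i ∈ s, (f i).coeff (d i) := by
  classical
  induction s using Finset.induction_on with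
  | empty => simp
  | insert a s ha ih =>
    obtain ⟨h1, h2⟩ := ih fun i hi => h i (Finset.mem_insert_of_mem hi)
    have ha' := h a (Finset.mem_insert_self a s)
    rw [Finset.prod_insert ha, Finset.sum_insert ha, Finset.prod_insert ha]
    refine ⟨natDegree_mul_le.trans (add_le_add ha' h1), ?_⟩
    rw [coeff_mul_add_eq_of_natDegree_le ha' h1, h2]

theorem det_monic {R : Type*} [CommRing R] [Nontrivial R] {r n e : ℕ} (hn : e * (r - 1) ≤ n)
    (M : Matrix (Fin r) (Fin r) R[X])
    (hM : ∀ l k : Fin r, ∀ i, n + e * (k : ℕ) ≤ i + e * (l : ℕ) →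
      (M l k).coeff i = if l = k ∧ i = n then 1 else 0) :
    M.det.Monic ∧ M.det.natDegree = n * r := by
  classical
  set d : Fin r → Fin r → ℕ := fun l k => n + e * (k : ℕ) - e * (l : ℕ) with hd
  have hle : ∀ l : Fin r, e * (l : ℕ) ≤ n := fun l =>
    (Nat.mul_le_mul_left e (by have := l.2; omega)).trans hn
  have hdeg : ∀ l k : Fin r, (M l k).natDegree ≤ d l k := by
    intro l k
    rw [natDegree_le_iff_coeff_eq_zero]
    intro i hi
    have hl := hle l
    simp only [hd] at hi
    rw [hM l k i (by omega), if_neg]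
    rintro ⟨rfl, rfl⟩
    omega
  have hcoef : ∀ l k : Fin r, (M l k).coeff (d l k) = if l = k then 1 else 0 := by
    intro l k
    have hl := hle l
    rw [hM l k _ (by simp only [hd]; omega)]
    by_cases h : l = k
    · subst h
      simp [hd]
    · simp [h]
  have hsum : ∀ σ : Equiv.Perm (Fin r), ∑ i, d (σ i) i = n * r := by
    intro σ
    have h1 : ∑ i, d (σ i) i + ∑ i, e * ((σ i : Fin r) : ℕ) = ∑ i : Fin r, (n + e * (i : ℕ)) := by
      rw [← Finset.sum_add_distrib]
      refine Finset.sum_congr rfl fun i _ => ?_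
      have hl := hle (σ i)
      simp only [hd]
      omega
    have h2 : ∑ i, e * ((σ i : Fin r) : ℕ) = ∑ i : Fin r, e * (i : ℕ) :=
      Equiv.sum_comp σ fun i : Fin r => e * (i : ℕ)
    rw [Finset.sum_add_distrib, h2, Finset.sum_const, Finset.card_univ, Fintype.card_fin] at h1
    have h3 := Nat.add_right_cancel h1
    rw [h3, smul_eq_mul, mul_comm]
  have hprod : ∀ σ : Equiv.Perm (Fin r), (∏ i, M (σ i) i).natDegree ≤ n * r ∧
      (∏ i, M (σ i) i).coeff (n * r) = ∏ i, (if σ i = i then (1 : R) else 0) := by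
    intro σ
    have := coeff_prod_bound Finset.univ (fun i => M (σ i) i) (fun i => d (σ i) i)
      (fun i _ => hdeg _ _)
    rw [hsum σ] at this
    refine ⟨this.1, this.2.trans (Finset.prod_congr rfl fun i _ => hcoef _ _)⟩
  have hdet1 : M.det.natDegree ≤ n * r := by
    rw [Matrix.det_apply]
    refine natDegree_sum_le_of_forall_le _ _ fun σ _ => ?_
    refine (natDegree_smul_le _ _).trans (hprod σ).1
  have hdet2 : M.det.coeff (n * r) = 1 := by
    rw [Matrix.det_apply, finsetSum_coeff, Finset.sum_eq_single (1 : Equiv.Perm (Fin r))]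
    · rw [coeff_smul, (hprod 1).2]
      simp
    · intro σ _ hσ
      rw [coeff_smul, (hprod σ).2]
      obtain ⟨i, hi⟩ : ∃ i, σ i ≠ i := by
        by_contra hcon
        push Not at hcon
        exact hσ (Equiv.ext hcon)
      rw [Finset.prod_eq_zero (Finset.mem_univ i) (by simp [hi]), smul_zero]
    · intro h
      exact absurd (Finset.mem_univ _) h
  have hmon : M.det.Monic := monic_of_natDegree_le_of_coeff_eq_one _ hdet1 hdet2
  refine ⟨hmon, le_antisymm hdet1 (le_natDegree_of_ne_zero ?_)⟩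
  rw [hdet2]
  exact one_ne_zero

theorem weight_step {R : Type*} [CommRing R] [Nontrivial R] {G : R[X][X]} (hG : G.Monic)
    {e : ℕ} (hwt : Wt G e) {n k : ℕ} (hk : k + 1 < G.natDegree) {A : R[X][X]}
    (hA : A.degree < G.degree)
    (hQ : ∀ l i, n + e * k ≤ i + e * l → (A.coeff l).coeff i = if l = k ∧ i = n then 1 else 0) :
    ∀ l i, n + e * (k + 1) ≤ i + e * l →
      (((A * X) %ₘ G).coeff l).coeff i = if l = k + 1 ∧ i = n then 1 else 0 := by
  set r := G.natDegree with hr
  have hAc : ∀ m, r ≤ m → A.coeff m = 0 := by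
    rw [degree_eq_natDegree hG.ne_zero] at hA
    exact (degree_lt_iff_coeff_zero A r).1 hA
  have h2 : (A * X - C (A.coeff (r - 1)) * G).degree < G.degree := by
    rw [degree_eq_natDegree hG.ne_zero, degree_lt_iff_coeff_zero]
    intro m hm
    rw [coeff_sub, coeff_C_mul]
    obtain ⟨m', rfl⟩ : ∃ m', m = m' + 1 := ⟨m - 1, by omega⟩
    rw [coeff_mul_X]
    rcases Nat.lt_or_ge r (m' + 1) with h | h
    · rw [hAc m' (by omega), coeff_eq_zero_of_natDegree_lt (p := G) (by omega)]
      simp
    · have h3 : m' + 1 = r := le_antisymm h hm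
      have h4 : r - 1 = m' := by omega
      rw [h4, h3, hr, hG.coeff_natDegree, mul_one, sub_self]
  have hmod : (A * X) %ₘ G = A * X - C (A.coeff (r - 1)) * G :=
    (div_modByMonic_unique (C (A.coeff (r - 1))) _ hG ⟨by ring, h2⟩).2
  intro l i hli
  rw [hmod, coeff_sub, coeff_C_mul, coeff_sub]
  have hz : (A.coeff (r - 1) * G.coeff l).coeff i = 0 := by
    rcases Nat.lt_or_ge r l with hl | hl
    · rw [coeff_eq_zero_of_natDegree_lt (p := G) hl]
      simp
    · rw [coeff_mul]
      refine Finset.sum_eq_zero fun uv huv => ?_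
      rw [Finset.HasAntidiagonal.mem_antidiagonal] at huv
      rcases Nat.lt_or_ge (e * (r - l)) uv.2 with hv | hv
      · rw [coeff_eq_zero_of_natDegree_lt (p := G.coeff l) ((hwt l).trans_lt hv), mul_zero]
      · have hu : (A.coeff (r - 1)).coeff uv.1 = 0 := by
          have h5 : e * (r - l) + e * l = e * (r - 1) + e := by
            rw [← mul_add, ← mul_add_one]
            congr 1
            omega
          have h6 : e * (k + 1) = e * k + e := by ring
          rw [hQ (r - 1) uv.1 (by omega), if_neg]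
          rintro ⟨h7, -⟩
          omega
        rw [hu, zero_mul]
  rw [hz, sub_zero]
  rcases l with _ | l
  · simp
  · rw [coeff_mul_X, hQ l i (by
      have h6 : e * (k + 1) = e * k + e := by ring
      have h7 : e * (l + 1) = e * l + e := by ring
      omega)]
    simp

theorem weight_all {R : Type*} [CommRing R] [Nontrivial R] {G : R[X][X]} (hG : G.Monic)
    {e : ℕ} (hwt : Wt G e) {n : ℕ} {A : R[X][X]} (hA : A.degree < G.degree)
    (hQ : ∀ l i, n ≤ i + e * l → (A.coeff l).coeff i = if l = 0 ∧ i = n then 1 else 0)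
    (k : ℕ) (hk : k < G.natDegree) :
    ∀ l i, n + e * k ≤ i + e * l →
      (((A * X ^ k) %ₘ G).coeff l).coeff i = if l = k ∧ i = n then 1 else 0 := by
  induction k with
  | zero =>
    intro l i hli
    rw [pow_zero, mul_one, (modByMonic_eq_self_iff hG).2 hA]
    exact hQ l i (by simpa using hli)
  | succ k ih =>
    have h := weight_step hG hwt hk (degree_modByMonic_lt (A * X ^ k) hG) (ih (by omega))
    intro l i hli
    rw [← h l i hli]
    congr 2
    have h1 : ((A * X ^ k) %ₘ G * X) %ₘ G = (A * X ^ (k + 1)) %ₘ G := by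
      have h3 := modByMonic_add_div (A * X ^ k) G
      refine ((div_modByMonic_unique (f := A * X ^ (k + 1)) ((A * X ^ k) /ₘ G * X + ((A * X ^ k) %ₘ G * X) /ₘ G)
        _ hG ⟨?_, degree_modByMonic_lt _ hG⟩).2).symm
      have h4 := modByMonic_add_div ((A * X ^ k) %ₘ G * X) G
      calc ((A * X ^ k) %ₘ G * X) %ₘ G + G * ((A * X ^ k) /ₘ G * X + ((A * X ^ k) %ₘ G * X) /ₘ G)
          = (((A * X ^ k) %ₘ G * X) %ₘ G + G * (((A * X ^ k) %ₘ G * X) /ₘ G)) +
            G * ((A * X ^ k) /ₘ G) * X := by ring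
        _ = ((A * X ^ k) %ₘ G + G * ((A * X ^ k) /ₘ G)) * X := by rw [h4]; ring
        _ = A * X ^ (k + 1) := by rw [h3]; ring
    rw [h1]

/-- A4 -/
theorem norm_monic {R : Type*} [CommRing R] [Nontrivial R] {G : R[X][X]} (hG : G.Monic)
    (hr : 0 < G.natDegree) {e : ℕ} (hwt : Wt G e) {n : ℕ} (hn : e * (G.natDegree - 1) ≤ n)
    (c : ℕ → R[X]) (hc : ∀ j < G.natDegree, ∀ i, n ≤ i + e * j →
      (c j).coeff i = if j = 0 ∧ i = n then 1 else 0) :
    (Algebra.norm R[X] (∑ j ∈ Finset.range G.natDegree,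
      AdjoinRoot.of G (c j) * AdjoinRoot.root G ^ j)).Monic ∧
    (Algebra.norm R[X] (∑ j ∈ Finset.range G.natDegree,
      AdjoinRoot.of G (c j) * AdjoinRoot.root G ^ j)).natDegree = n * G.natDegree := by
  classical
  set A : R[X][X] := ∑ j ∈ Finset.range G.natDegree, C (c j) * X ^ j with hA
  have hAc : ∀ l, A.coeff l = if l < G.natDegree then c l else 0 := by
    intro l
    rw [hA, finsetSum_coeff]
    simp only [coeff_C_mul_X_pow]
    rw [Finset.sum_ite_eq (Finset.range G.natDegree) l c]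
    simp
  have hAdeg : A.degree < G.degree := by
    rw [degree_eq_natDegree hG.ne_zero, degree_lt_iff_coeff_zero]
    intro m hm
    rw [hAc, if_neg (by omega)]
  have hQ : ∀ l i, n ≤ i + e * l →
      (A.coeff l).coeff i = if l = 0 ∧ i = n then 1 else 0 := by
    intro l i hli
    rw [hAc]
    split_ifs with h1 h2 h2
    · rw [hc l h1 i hli, if_pos h2]
    · rw [hc l h1 i hli, if_neg h2]
    · obtain ⟨rfl, -⟩ := h2
      exact absurd hr h1
    · simp
  have hφ : (∑ j ∈ Finset.range G.natDegree,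
      AdjoinRoot.of G (c j) * AdjoinRoot.root G ^ j) = AdjoinRoot.mk G A := by
    rw [hA, map_sum]
    refine Finset.sum_congr rfl fun j _ => ?_
    rw [map_mul, map_pow, AdjoinRoot.mk_C, AdjoinRoot.mk_X]
  rw [hφ, Algebra.norm_eq_matrix_det (AdjoinRoot.powerBasisAux' hG)]
  refine det_monic hn _ fun l k i hi => ?_
  rw [Algebra.leftMulMatrix_eq_repr_mul]
  have hb : (AdjoinRoot.powerBasisAux' hG) k = AdjoinRoot.mk G (X ^ (k : ℕ)) := by
    have := (AdjoinRoot.powerBasis' hG).basis_eq_pow k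
    rw [map_pow, AdjoinRoot.mk_X]
    exact this
  rw [hb, ← map_mul, AdjoinRoot.powerBasisAux'_repr_apply_to_fun, AdjoinRoot.modByMonicHom_mk,
    weight_all hG hwt hAdeg hQ k k.2 l i hi]
  simp only [Fin.ext_iff]

end Pool.Agent.Helper49.SYM
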